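import Pool.Agent.H80.Gon.M18

/-!
Modular curves of bounded congruence defect do not dominate Fermat curves of large degree.

`H80.Gon.IsModularFunction Γ x` says that `x` is a meromorphic function on the compact modular
curve `X_Γ`, and `H80.Gon.congDefect Γ = [Γ̄ : Γ]` where `Γ̄ = H80.Gon.congClosure Γ` is the smallest
congruence subgroup containing `Γ`.
-/

open MatrixGroups UpperHalfPlane H80.Gon

namespace Pool.Agent.Results.MP_db315d_nt.BoundedDefect

/-- `congClosure Γ` is the smallest congruence subgroup containing `Γ` (finite index case). -/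
theorem closure_spec (Γ : Subgroup SL(2, ℤ)) [Γ.FiniteIndex] :
    CongruenceSubgroup.IsCongruenceSubgroup (congClosure Γ) ∧ Γ ≤ congClosure Γ ∧
      ∀ Δ : Subgroup SL(2, ℤ), CongruenceSubgroup.IsCongruenceSubgroup Δ → Γ ≤ Δ →
        congClosure Γ ≤ Δ :=
  congClosure_spec Γ

/-- There is an absolute constant `C` such that for every finite index subgroup `Γ` of `SL(2, ℤ)`
and every `n > C · cd_Γ²` the equation `x^n + y^n = 1` has only constant solutions in the function
field of the modular curve `X_Γ`; so there is no surjective morphism from `X_Γ` to the Fermat curve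
`X^n + Y^n = Z^n`. -/
theorem result : ∃ C : ℕ, ∀ Γ : Subgroup SL(2, ℤ), Γ.FiniteIndex → ∀ n : ℕ,
    C * congDefect Γ ^ 2 < n →
    ∀ x y : ℍ → ℂ, IsModularFunction Γ x → IsModularFunction Γ y →
      (∀ᶠ z in Filter.codiscrete ℍ, x z ^ n + y z ^ n = 1) →
      ∃ a b : ℂ, ∀ᶠ z in Filter.codiscrete ℍ, x z = a ∧ y z = b :=
  fermat_functions

/-- The same for modular forms: every solution of `f^n + g^n = h^n` in modular forms of equal
weight on `Γ` is proportional to a constant one. -/
theorem forms_version : ∃ C : ℕ, ∀ Γ : Subgroup SL(2, ℤ), Γ.FiniteIndex → ∀ n : ℕ,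
    C * congDefect Γ ^ 2 < n →
    ∀ (k : ℤ) (f g h : ModularForm (Γ : Subgroup (GL (Fin 2) ℝ)) k),
      (∀ z, f z ^ n + g z ^ n = h z ^ n) →
      ∃ (F : ModularForm (Γ : Subgroup (GL (Fin 2) ℝ)) k) (a b c : ℂ),
        f = a • F ∧ g = b • F ∧ h = c • F := by
  obtain ⟨C, hC⟩ := result
  refine ⟨C, fun Γ hΓ n hn => ?_⟩
  exact forms_of_functions n (by omega) Γ (hC Γ hΓ n hn)

end Pool.Agent.Results.MP_db315d_nt.BoundedDefect
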